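import Pool.Agent.FU3.Stmts
import Pool.Agent.Helper42_FU2.EXP

/-!
# Squad FU3, row FI4: assembly (after Helper42_FU2/FI3)
-/

set_option autoImplicit false

open Finset

namespace Pool.Agent.FU3.H13

open Pool.Agent.FUR Pool.Agent.FU2 Pool.Agent.FU3 Pool.Agent.FU2.H42

theorem vars_card_le (F : PF) : F.vars.card ≤ F.size := by
  induction F with
  | cst b => simp [PF.vars, PF.size]
  | var v => simp [PF.vars, PF.size]
  | neg φ ih =>
    show φ.vars.card ≤ φ.size + 1
    omega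
  | and φ ψ ih1 ih2 =>
    show (φ.vars ∪ ψ.vars).card ≤ φ.size + ψ.size + 1
    have := card_union_le φ.vars ψ.vars
    omega
  | or φ ψ ih1 ih2 =>
    show (φ.vars ∪ ψ.vars).card ≤ φ.size + ψ.size + 1
    have := card_union_le φ.vars ψ.vars
    omega

/-- row FI4 -/
theorem fi4 (hITR : ITRStmt) (hCPF : CPFStmt) (hDTF : DTFStmt) (hNQG : NQGStmt)
    (hGRG : GRGStmt) (hCVT : CVTStmt) (hNUG : NUGStmt) (hDL2 : DL2Stmt) (hSEM : SEMStmt)
    (hMAT : MATStmt) : FI4Stmt := by
  intro d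
  obtain ⟨C, hN⟩ := hNUG d
  refine ⟨C, fun n r s hn1 hr1 hs1 hnr R hR P hPc hP Λ k hΛ hbot => ?_⟩
  by_contra hcon
  rw [not_le] at hcon
  obtain ⟨T, q, m, κ, hT1, hTM, hTn, hκ, hκT, hq, hqm, h5, hnum⟩ := hN n r s hr1 hs1 hnr hcon
  obtain ⟨ls, hnd, hmem, hlist⟩ := exp1 hSEM hMAT n hn1 R hR P Λ k hΛ hbot
  set M := ls.length with hM
  have hMP : M ≤ 2 ^ r := by
    classical
    have h1 : ls.toFinset ⊆ P := fun L hL => hmem L (List.mem_toFinset.1 hL)
    have h2 := card_le_card h1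
    rw [List.toFinset_card_of_nodup hnd] at h2
    exact h2.trans hPc
  have hOv : ∀ j : Fin M, Over d s (2 ^ r) (ls.get j) :=
    fun j => hP _ (hmem _ (List.get_mem ls j))
  choose Fo τo ho1 ho2 ho3 using hOv
  -- the bounded depth parts
  obtain ⟨Λ', hΛ'⟩ : ∃ Λ' : List PF, Λ' = (List.finRange M).flatMap fun j =>
      ((Fo j).vars.toList.map (τo j)) := ⟨_, rfl⟩
  have hmem' : ∀ φ, φ ∈ Λ' ↔ ∃ j, ∃ v ∈ (Fo j).vars, τo j v = φ := by
    intro φ
    rw [hΛ', List.mem_flatMap]
    constructor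
    · rintro ⟨j, -, h⟩
      obtain ⟨v, hv, hvφ⟩ := List.mem_map.1 h
      exact ⟨j, v, Finset.mem_toList.1 hv, hvφ⟩
    · rintro ⟨j, v, hv, hvφ⟩
      exact ⟨j, List.mem_finRange j, List.mem_map.2 ⟨v, Finset.mem_toList.2 hv, hvφ⟩⟩
  have hlen : Λ'.length ≤ 2 ^ r * s := by
    rw [hΛ', List.length_flatMap]
    have h1 : ∀ x ∈ (List.map (fun j : Fin M =>
        ((Fo j).vars.toList.map (τo j)).length) (List.finRange M)), x ≤ s := by
      intro x hx
      obtain ⟨j, -, hj⟩ := List.mem_map.1 hx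
      rw [← hj, List.length_map, Finset.length_toList]
      exact (vars_card_le _).trans (ho2 j)
    have h2 := List.sum_le_card_nsmul _ s h1
    rw [List.length_map, List.length_finRange, smul_eq_mul] at h2
    exact h2.trans (Nat.mul_le_mul_right s hMP)
  obtain ⟨r₁, hr₁, hDt⟩ := hITR d T (2 ^ r * s) (2 ^ r) n Λ' hT1 Nat.one_le_two_pow hlen
    (by
      intro φ hφ
      obtain ⟨j, v, -, rfl⟩ := (hmem' φ).1 hφ
      exact ho3 j v) hTM hTn
  have hst : (stars r₁).card ≤ n := by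
    have h1 := card_le_univ (stars r₁)
    rwa [Fintype.card_fin] at h1
  obtain ⟨hmn, hnum'⟩ := hnum (stars r₁).card hst hr₁
  have hnum2 := hnum' M hMP
  have hCL : ∀ (j : Fin M) (c : Bool), ∃ u ≤ s, CL (Dg T) u
      (res r₁ fun x : Fin n → Bool => (ls.get j).eval (asg x c)) := by
    intro j c
    obtain ⟨u, hu, h⟩ := hCPF n (Dg T) r₁ (τo j) c (Fo j) (by
      intro v hv
      exact hDTF n T _ (hDt (τo j v) ((hmem' _).2 ⟨j, v, hv, rfl⟩) c))
    refine ⟨u, hu.trans (ho2 j), ?_⟩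
    have h1 : (fun x : Fin n → Bool => ((Fo j).sub (τo j)).eval (asg x c)) =
        fun x : Fin n → Bool => (ls.get j).eval (asg x c) := by
      funext x
      exact ho1 j _
    rw [h1] at h
    exact h
  -- the functions
  let T' : Fin M → BF n := fun j x => tt (ls.get j) x
  let B' : Fin M → BF n := fun j x => (ls.get j).eval (asg x false)
  let F : Fin (3 * M) → BF n := fun i =>
    if (finProdFinEquiv.symm i).1 = 0 then res r₁ (T' (finProdFinEquiv.symm i).2)
    else if (finProdFinEquiv.symm i).1 = 1 then res r₁ (T' (finProdFinEquiv.symm i).2)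
    else res r₁ (B' (finProdFinEquiv.symm i).2)
  have hT : ∀ j : Fin M, ∃ u ≤ 2 * s, CL (Dg T) u (res r₁ (T' j)) := by
    intro j
    obtain ⟨u, hu, h⟩ := hCL j false
    obtain ⟨u', hu', h'⟩ := hCL j true
    exact ⟨u + u', by omega, CL.and h h'⟩
  have hB : ∀ j : Fin M, ∃ u ≤ 2 * s, CL (Dg T) u (res r₁ (B' j)) := by
    intro j
    obtain ⟨u, hu, h⟩ := hCL j false
    exact ⟨u, by omega, h⟩
  have hLC : ∀ i, ∃ u ≤ 2 * s, CL (Dg T) u (F i) := by
    intro i
    show ∃ u ≤ 2 * s, CL (Dg T) u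
      (if (finProdFinEquiv.symm i).1 = 0 then res r₁ (T' (finProdFinEquiv.symm i).2)
      else if (finProdFinEquiv.symm i).1 = 1 then res r₁ (T' (finProdFinEquiv.symm i).2)
      else res r₁ (B' (finProdFinEquiv.symm i).2))
    split_ifs
    · exact hT _
    · exact hT _
    · exact hB _
  have hgrs : 2 ^ m * m.choose q * ∑ j, Nq q (F j) < 2 ^ n * (stars r₁).card.choose q := by
    have h1 : ((2 ^ m * m.choose q * ∑ j, Nq q (F j) : ℕ) : ℝ) <
        ((2 ^ n * (stars r₁).card.choose q : ℕ) : ℝ) := by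
      push_cast
      refine lt_of_le_of_lt (mul_le_mul_of_nonneg_left ?_ (by positivity)) hnum2
      calc (∑ j, (Nq q (F j) : ℝ))
          ≤ ∑ _j : Fin (3 * M), 2 ^ n * ((2 / κ) ^ q *
              Real.exp (50 * (κ ^ 2 * (T : ℝ) ^ 4) * ((2 * s : ℕ) : ℝ))) := by
            refine sum_le_sum fun i _ => ?_
            obtain ⟨u, hu, h⟩ := hLC i
            exact hNQG n q T u (2 * s) (F i) κ hT1 hκ hκT h hu
        _ = (3 * M) * (2 ^ n * ((2 / κ) ^ q *
              Real.exp (50 * (κ ^ 2 * (T : ℝ) ^ 4) * ((2 * s : ℕ) : ℝ)))) := by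
            rw [sum_const, card_univ, Fintype.card_fin, nsmul_eq_mul]
            push_cast
            rfl
    exact_mod_cast h1
  obtain ⟨K, ρ, hKs, hK, hder⟩ := hGRG n m q (3 * M) (stars r₁) F hmn hqm hgrs
  have hq1 : q - 1 + 1 = q := by omega
  have hder0 : ∀ j x (I : Finset (Fin n)), I ⊆ K → I.card = q →
      dv I (ind (T' j)) (ov K (apl r₁ ρ) x) = 0 := by
    intro j x I hIK hIq
    have h := hder (finProdFinEquiv (0, j)) x I hIK hIq
    have hF : F (finProdFinEquiv (0, j)) = res r₁ (T' j) := by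
      show (if (finProdFinEquiv.symm (finProdFinEquiv ((0 : Fin 3), j))).1 = 0 then
        res r₁ (T' (finProdFinEquiv.symm (finProdFinEquiv ((0 : Fin 3), j))).2)
        else if (finProdFinEquiv.symm (finProdFinEquiv ((0 : Fin 3), j))).1 = 1 then
          res r₁ (T' (finProdFinEquiv.symm (finProdFinEquiv ((0 : Fin 3), j))).2)
        else res r₁ (B' (finProdFinEquiv.symm (finProdFinEquiv ((0 : Fin 3), j))).2)) = _
      rw [Equiv.symm_apply_apply, if_pos rfl]
    rw [hF, hCVT n r₁ K I ρ x (T' j) hKs hIK] at h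
    exact h
  refine hDL2 n m (q - 1) M T' T' B' K (apl r₁ ρ) hK h5 ?_ ?_
  · intro j x I hIK hIq
    rw [hq1] at hIq
    refine ⟨hder0 j x I hIK hIq, hder0 j x I hIK hIq, ?_⟩
    have h := hder (finProdFinEquiv (2, j)) x I hIK hIq
    have hF : F (finProdFinEquiv (2, j)) = res r₁ (B' j) := by
      show (if (finProdFinEquiv.symm (finProdFinEquiv ((2 : Fin 3), j))).1 = 0 then
        res r₁ (T' (finProdFinEquiv.symm (finProdFinEquiv ((2 : Fin 3), j))).2)
        else if (finProdFinEquiv.symm (finProdFinEquiv ((2 : Fin 3), j))).1 = 1 then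
          res r₁ (T' (finProdFinEquiv.symm (finProdFinEquiv ((2 : Fin 3), j))).2)
        else res r₁ (B' (finProdFinEquiv.symm (finProdFinEquiv ((2 : Fin 3), j))).2)) = _
      rw [Equiv.symm_apply_apply]
      show (if (2 : Fin 3) = 0 then res r₁ (T' j) else if (2 : Fin 3) = 1 then res r₁ (T' j)
        else res r₁ (B' j)) = _
      rw [if_neg (by decide), if_neg (by decide)]
    rw [hF, hCVT n r₁ K I ρ x (B' j) hKs hIK] at h
    exact h
  · intro x
    obtain ⟨j, h1, h2, h3⟩ := hlist x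
    have hval : ∀ i : Fin M, (if B' i x then T' i x else T' i x) = tt (ls.get i) x := by
      intro i
      split_ifs <;> rfl
    refine ⟨j, ?_, ?_, h3⟩
    · rw [hval]; exact h1
    · intro i hi
      rw [hval]; exact h2 i hi

end Pool.Agent.FU3.H13
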