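import Pool.Agent.FU3.Stmts

/-!
# Squad FU3, row GRG: existence of a good subcube inside `K₀` (after Helper70_FU2/GR2)
-/

set_option autoImplicit false

namespace Pool.Agent.FU3.H13

open Finset Pool.Agent.FUR Pool.Agent.FU2 Pool.Agent.FU3

variable {N : ℕ}

/-- the number of `k`-sets containing a given `r`-set -/
theorem card_sup (k r : ℕ) (K₀ R : Finset (Fin N)) (hR : R.card = r) (hRK : R ⊆ K₀) :
    ((powersetCard k K₀).filter (fun K => R ⊆ K)).card ≤
      (K₀.card - r).choose (k - r) := by
  classical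
  have h1 : (powersetCard (k - r) (K₀ \ R : Finset (Fin N))).card =
      (K₀.card - r).choose (k - r) := by
    rw [card_powersetCard, card_sdiff_of_subset hRK, hR]
  rw [← h1]
  refine card_le_card_of_injOn (fun K => K \ R) ?_ ?_
  · intro K hK
    obtain ⟨hK1, hK2⟩ := mem_filter.mp (mem_coe.mp hK)
    obtain ⟨hK4, hK3⟩ := mem_powersetCard.mp hK1
    rw [mem_coe, mem_powersetCard]
    refine ⟨sdiff_subset_sdiff hK4 (Subset.refl _), ?_⟩
    rw [card_sdiff_of_subset hK2, hK3, hR]
  · intro K hK K' hK' h
    have hK2 := (mem_filter.mp (mem_coe.mp hK)).2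
    have hK2' := (mem_filter.mp (mem_coe.mp hK')).2
    have h' : K \ R = K' \ R := h
    rw [← sdiff_union_of_subset hK2, ← sdiff_union_of_subset hK2', h']

/-- the number of assignments that agree with `z` outside of `K` -/
theorem card_agree (K : Finset (Fin N)) (z : Fin N → Bool) :
    ((univ : Finset (Fin N → Bool)).filter (fun ρ => ∀ v, v ∉ K → ρ v = z v)).card ≤
      2 ^ K.card := by
  classical
  have h1 : Fintype.card (K → Bool) = 2 ^ K.card := by simp
  rw [← h1, ← card_univ]
  refine card_le_card_of_injOn (fun ρ => fun v : K => ρ v) (fun _ _ => mem_coe.mpr (mem_univ _)) ?_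
  intro ρ hρ ρ' hρ' h
  have a1 := (mem_filter.mp (mem_coe.mp hρ)).2
  have a2 := (mem_filter.mp (mem_coe.mp hρ')).2
  funext v
  by_cases hv : v ∈ K
  · exact congrFun h ⟨v, hv⟩
  · rw [a1 v hv, a2 v hv]

/-- one point: the number of `k`-sets `K` for which it is bad -/
theorem count_bad (k q : ℕ) (K₀ : Finset (Fin N)) (P : Finset (Fin N) → Prop) [DecidablePred P]
    [DecidablePred fun K : Finset (Fin N) => ∃ I : Finset (Fin N), I ⊆ K ∧ I.card = q ∧ P I] :
    ∑ K ∈ powersetCard k K₀,
        (if ∃ I : Finset (Fin N), I ⊆ K ∧ I.card = q ∧ P I then 1 else 0) ≤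
      ((powersetCard q (univ : Finset (Fin N))).filter fun I => P I).card *
        (K₀.card - q).choose (k - q) := by
  classical
  have h1 : ∀ K ∈ powersetCard k K₀,
      (if ∃ I : Finset (Fin N), I ⊆ K ∧ I.card = q ∧ P I then 1 else 0) ≤
      ∑ I ∈ (powersetCard q K₀).filter (fun I => P I),
        (if I ⊆ K then 1 else 0) := by
    intro K hKK
    split_ifs with h
    · obtain ⟨I, hI1, hI2, hI3⟩ := h
      have hmem : I ∈ (powersetCard q K₀).filter (fun I => P I) := by
        rw [mem_filter, mem_powersetCard]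
        exact ⟨⟨hI1.trans (mem_powersetCard.mp hKK).1, hI2⟩, hI3⟩
      calc 1 = (if I ⊆ K then 1 else 0) := by rw [if_pos hI1]
        _ ≤ _ := single_le_sum (f := fun I => (if I ⊆ K then 1 else 0))
            (fun i _ => Nat.zero_le _) hmem
    · exact Nat.zero_le _
  refine (sum_le_sum fun K hK => h1 K hK).trans ?_
  rw [sum_comm]
  calc ∑ I ∈ (powersetCard q K₀).filter (fun I => P I),
        ∑ K ∈ powersetCard k K₀, (if I ⊆ K then 1 else 0)
      ≤ ∑ I ∈ (powersetCard q K₀).filter (fun I => P I),
        (K₀.card - q).choose (k - q) := by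
        refine sum_le_sum fun I hI => ?_
        rw [sum_ite, sum_const_zero, add_zero, sum_const, smul_eq_mul, mul_one]
        exact card_sup k q K₀ I (mem_powersetCard.mp (mem_filter.mp hI).1).2
          (mem_powersetCard.mp (mem_filter.mp hI).1).1
    _ = ((powersetCard q K₀).filter fun I => P I).card * (K₀.card - q).choose (k - q) := by
        rw [sum_const, smul_eq_mul]
    _ ≤ _ := by
        refine Nat.mul_le_mul_right _ (card_le_card (filter_subset_filter _ ?_))
        exact powersetCard_mono (subset_univ _)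

/-- row GRG -/
theorem grg : GRGStmt := by
  classical
  intro N k q M K₀ F hkN hqk hlt
  by_contra hcon
  push Not at hcon
  -- the bad points
  obtain ⟨bad, hbad⟩ : ∃ bad : Fin M → Finset (Fin N) → Finset (Fin N → Bool), bad = fun j K =>
    univ.filter fun z => ∃ I : Finset (Fin N), I ⊆ K ∧ I.card = q ∧ dv I (ind (F j)) z ≠ 0 :=
      ⟨_, rfl⟩
  have hA : ∀ K : Finset (Fin N), K ⊆ K₀ → K.card = k →
      2 ^ N ≤ 2 ^ k * ∑ j, (bad j K).card := by
    intro K hKK hK
    have h1 : (univ : Finset (Fin N → Bool)) ⊆ (univ : Finset (Fin M)).biUnion fun j =>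
        (bad j K).biUnion fun z => univ.filter fun ρ => ∀ v, v ∉ K → ρ v = z v := by
      intro ρ _
      obtain ⟨j, x, I, hI1, hI2, hjx⟩ := hcon K ρ hKK hK
      rw [mem_biUnion]
      refine ⟨j, mem_univ _, ?_⟩
      rw [mem_biUnion]
      refine ⟨ov K ρ x, ?_, ?_⟩
      · rw [hbad]
        exact mem_filter.mpr ⟨mem_univ _, I, hI1, hI2, hjx⟩
      · refine mem_filter.mpr ⟨mem_univ _, fun v hv => ?_⟩
        unfold ov
        rw [if_neg hv]
    have h2 := card_le_card h1
    have h3 : (univ : Finset (Fin N → Bool)).card = 2 ^ N := by simp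
    rw [h3] at h2
    refine h2.trans ?_
    refine card_biUnion_le.trans ?_
    rw [mul_sum]
    refine sum_le_sum fun j _ => ?_
    refine card_biUnion_le.trans ?_
    calc ∑ z ∈ bad j K, ((univ : Finset (Fin N → Bool)).filter
          (fun ρ => ∀ v, v ∉ K → ρ v = z v)).card
        ≤ ∑ z ∈ bad j K, 2 ^ k := sum_le_sum fun z _ => by rw [← hK]; exact card_agree K z
      _ = 2 ^ k * (bad j K).card := by rw [sum_const, smul_eq_mul, mul_comm]
  have hB : K₀.card.choose k * 2 ^ N ≤ 2 ^ k * ((K₀.card - q).choose (k - q) * ∑ j, Nq q (F j)) := by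
    calc K₀.card.choose k * 2 ^ N = ∑ K ∈ powersetCard k K₀, 2 ^ N := by
          rw [sum_const, card_powersetCard, smul_eq_mul]
      _ ≤ ∑ K ∈ powersetCard k K₀, 2 ^ k * ∑ j, (bad j K).card :=
          sum_le_sum fun K hK => hA K (mem_powersetCard.mp hK).1 (mem_powersetCard.mp hK).2
      _ = 2 ^ k * ∑ j, ∑ K ∈ powersetCard k K₀, (bad j K).card := by
          rw [← mul_sum, sum_comm]
      _ ≤ 2 ^ k * ∑ j, (K₀.card - q).choose (k - q) * Nq q (F j) := by
          refine Nat.mul_le_mul_left _ (sum_le_sum fun j _ => ?_)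
          calc ∑ K ∈ powersetCard k K₀, (bad j K).card
              = ∑ K ∈ powersetCard k K₀, ∑ z : Fin N → Bool,
                (if ∃ I : Finset (Fin N), I ⊆ K ∧ I.card = q ∧ dv I (ind (F j)) z ≠ 0
                  then 1 else 0) := by
                refine sum_congr rfl fun K _ => ?_
                rw [hbad, card_filter]
            _ = ∑ z : Fin N → Bool, ∑ K ∈ powersetCard k K₀,
                (if ∃ I : Finset (Fin N), I ⊆ K ∧ I.card = q ∧ dv I (ind (F j)) z ≠ 0
                  then 1 else 0) := sum_comm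
            _ ≤ ∑ z : Fin N → Bool, (((powersetCard q (univ : Finset (Fin N))).filter
                fun I => dv I (ind (F j)) z ≠ 0).card * (K₀.card - q).choose (k - q)) :=
                sum_le_sum fun z _ => count_bad k q K₀ fun I => dv I (ind (F j)) z ≠ 0
            _ = (K₀.card - q).choose (k - q) * Nq q (F j) := by
                unfold Nq
                rw [← sum_mul, mul_comm]
      _ = 2 ^ k * ((K₀.card - q).choose (k - q) * ∑ j, Nq q (F j)) := by rw [← mul_sum]
  have hpos : 0 < (K₀.card - q).choose (k - q) := Nat.choose_pos (by omega)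
  have hC : K₀.card.choose k * k.choose q = K₀.card.choose q * (K₀.card - q).choose (k - q) :=
    Nat.choose_mul hqk
  have h1 := Nat.mul_lt_mul_of_pos_right hlt hpos
  have h2 := Nat.mul_le_mul_right (k.choose q) hB
  have h3 : 2 ^ N * K₀.card.choose q * (K₀.card - q).choose (k - q) = K₀.card.choose k * 2 ^ N * k.choose q := by
    rw [mul_assoc, ← hC]; ring
  rw [h3] at h1
  have h4 : 2 ^ k * k.choose q * (∑ j, Nq q (F j)) * (K₀.card - q).choose (k - q) =
      2 ^ k * ((K₀.card - q).choose (k - q) * ∑ j, Nq q (F j)) * k.choose q := by ring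
  rw [h4] at h1
  exact absurd (lt_of_lt_of_le h1 h2) (lt_irrefl _)

end Pool.Agent.FU3.H13
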